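import Pool.Agent.Helper93.KP.St

/-!
# Project KP (MP_77e955_nt), module OFF: the off-diagonal correlation is small
-/

set_option autoImplicit false

noncomputable section

namespace Pool.Agent.Helper86.KP

open Finset Filter Topology
open Pool.Agent.Helper93.KP
open Pool.Agent.Helper15.AB (ee Kl StDB StMT)
open Pool.Agent.Helper9.TW (iv bx Rg cc Dec WF bm ms ind UpP LoP gm Ax GUp GLo Qs fm ej)

/-- a constant times a power of the logarithm is small -/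
private theorem log_small (Q s : ℝ) (hs : 0 < s) :
    ∃ a₀ : ℕ, 3 ≤ a₀ ∧ ∀ a : ℕ, a₀ ≤ a → Q * (1 + Real.log a) ^ 8 ≤ (a : ℝ) ^ (16 * s) := by
  set Q' : ℝ := |Q| * (1 + 1 / s) ^ 8 with hQ'
  have h1 : ∀ᶠ a : ℕ in atTop, Q' ≤ (a : ℝ) ^ (8 * s) :=
    ((tendsto_rpow_atTop (by positivity : 0 < 8 * s)).comp
      tendsto_natCast_atTop_atTop).eventually_ge_atTop Q'
  obtain ⟨a₁, ha₁⟩ := eventually_atTop.1 h1
  refine ⟨max 3 a₁, le_max_left _ _, fun a ha => ?_⟩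
  have ha3 : 3 ≤ a := le_trans (le_max_left _ _) ha
  have hq := ha₁ a (le_trans (le_max_right _ _) ha)
  have ha1 : (1 : ℝ) ≤ a := by
    have : 1 ≤ a := by omega
    exact_mod_cast this
  have ha0 : (0 : ℝ) < a := by linarith
  have hlog0 : 0 ≤ Real.log a := Real.log_nonneg ha1
  have hlog : Real.log a ≤ (a : ℝ) ^ s / s := Real.log_le_rpow_div ha0.le hs
  have has : 1 ≤ (a : ℝ) ^ s := Real.one_le_rpow ha1 hs.le
  have hL : 1 + Real.log a ≤ (1 + 1 / s) * (a : ℝ) ^ s := by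
    have e : (1 + 1 / s) * (a : ℝ) ^ s = (a : ℝ) ^ s + (a : ℝ) ^ s / s := by ring
    rw [e]
    linarith
  have hL8 : (1 + Real.log a) ^ 8 ≤ (1 + 1 / s) ^ 8 * (a : ℝ) ^ (8 * s) := by
    have h := pow_le_pow_left₀ (by linarith) hL 8
    rw [mul_pow, ← Real.rpow_natCast ((a : ℝ) ^ s) 8, ← Real.rpow_mul ha0.le] at h
    have e : s * ((8 : ℕ) : ℝ) = 8 * s := by push_cast; ring
    rw [e] at h
    exact h
  calc Q * (1 + Real.log a) ^ 8 ≤ |Q| * ((1 + 1 / s) ^ 8 * (a : ℝ) ^ (8 * s)) := by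
        apply mul_le_mul (le_abs_self Q) hL8 (by positivity) (abs_nonneg Q)
    _ = Q' * (a : ℝ) ^ (8 * s) := by rw [hQ']; ring
    _ ≤ (a : ℝ) ^ (8 * s) * (a : ℝ) ^ (8 * s) := by
        apply mul_le_mul_of_nonneg_right hq (by positivity)
    _ = (a : ℝ) ^ (16 * s) := by
        rw [← Real.rpow_add ha0]
        congr 1
        ring

/-- the triangle inequality for the decomposition -/
private theorem comb (S A1 A2 A3 A4 Z G μ MC' MK' MK'' : ℝ)
    (hS : S = A1 - μ * A2 - μ * A3 + μ ^ 2 * A4 + Z +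
      G * ((MC' - μ ^ 2) - μ * (MK' - μ) - μ * (MK'' - μ))) :
    |S| ≤ |A1| + |μ| * |A2| + |μ| * |A3| + |μ| ^ 2 * |A4| + |Z| +
      |G| * (|MC' - μ ^ 2| + |μ| * |MK' - μ| + |μ| * |MK'' - μ|) := by
  rw [hS]
  have h1 : |(MC' - μ ^ 2) - μ * (MK' - μ) - μ * (MK'' - μ)| ≤
      |MC' - μ ^ 2| + |μ| * |MK' - μ| + |μ| * |MK'' - μ| := by
    calc |(MC' - μ ^ 2) - μ * (MK' - μ) - μ * (MK'' - μ)|
        ≤ |(MC' - μ ^ 2) - μ * (MK' - μ)| + |μ * (MK'' - μ)| := abs_sub _ _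
      _ ≤ |MC' - μ ^ 2| + |μ * (MK' - μ)| + |μ * (MK'' - μ)| := by
          gcongr
          exact abs_sub _ _
      _ = _ := by rw [abs_mul, abs_mul]
  have h2 : |A1 - μ * A2 - μ * A3 + μ ^ 2 * A4 + Z +
      G * ((MC' - μ ^ 2) - μ * (MK' - μ) - μ * (MK'' - μ))| ≤
      |A1 - μ * A2 - μ * A3 + μ ^ 2 * A4 + Z| +
        |G * ((MC' - μ ^ 2) - μ * (MK' - μ) - μ * (MK'' - μ))| := abs_add_le _ _
  have h3 : |A1 - μ * A2 - μ * A3 + μ ^ 2 * A4 + Z| ≤
      |A1| + |μ| * |A2| + |μ| * |A3| + |μ| ^ 2 * |A4| + |Z| := by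
    calc |A1 - μ * A2 - μ * A3 + μ ^ 2 * A4 + Z|
        ≤ |A1 - μ * A2 - μ * A3 + μ ^ 2 * A4| + |Z| := abs_add_le _ _
      _ ≤ |A1 - μ * A2 - μ * A3| + |μ ^ 2 * A4| + |Z| := by
          gcongr
          exact abs_add_le _ _
      _ ≤ |A1 - μ * A2| + |μ * A3| + |μ ^ 2 * A4| + |Z| := by
          gcongr
          exact abs_sub _ _
      _ ≤ |A1| + |μ * A2| + |μ * A3| + |μ ^ 2 * A4| + |Z| := by
          gcongr
          exact abs_sub _ _
      _ = _ := by rw [abs_mul, abs_mul, abs_mul, abs_pow]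
  rw [abs_mul] at h2
  have h4 := mul_le_mul_of_nonneg_left h1 (abs_nonneg G)
  linarith

/-- the numerical estimate -/
private theorem numer (A1 A2 A3 A4 Z G μ dC dK dK' C1 CG CM CZ w L l X X1 X2 a X5 X6 : ℝ)
    (hw : 0 ≤ w) (hL : 1 ≤ L) (hl0 : 0 ≤ l) (hlL : l ≤ L) (hX : 0 ≤ X) (hC1 : 0 ≤ C1)
    (hCG : 0 ≤ CG) (hCM : 0 ≤ CM) (hCZ : 0 ≤ CZ) (ha : 0 ≤ a)
    (hX1 : X1 ≤ X) (hX2 : X2 ≤ X) (haX : a ≤ X) (hX5 : X5 ≤ X) (hX6 : a ^ 2 * X6 ≤ X)
    (hX20 : 0 ≤ X2) (hX60 : 0 ≤ X6)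
    (h1 : |A1| ≤ C1 * w ^ 2 * X1) (h2 : |A2| ≤ C1 * w * X2) (h3 : |A3| ≤ C1 * w * X2)
    (h4 : |A4| ≤ C1 * a) (h5 : |Z| ≤ CZ * w ^ 2 * X5) (hG : |G| ≤ 3 * a ^ 2 * (CG * l ^ 3))
    (hμ : |μ| ≤ w * L ^ 2) (hdC : dC ≤ CM * w ^ 2 * L ^ 5 * X6) (hdK : dK ≤ CM * w * L ^ 3 * X6)
    (hdK' : dK' ≤ CM * w * L ^ 3 * X6) (hdK0 : 0 ≤ dK) (hdK0' : 0 ≤ dK') (hdC0 : 0 ≤ dC) :
    |A1| + |μ| * |A2| + |μ| * |A3| + |μ| ^ 2 * |A4| + |Z| + |G| * (dC + |μ| * dK + |μ| * dK') ≤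
      (w ^ 2 * (4 * C1 + CZ + 9 * CG * CM)) * L ^ 8 * X := by
  have hL0 : 0 ≤ L := by linarith
  have hL2 : 1 ≤ L ^ 2 := one_le_pow₀ hL
  have hL28 : L ^ 2 ≤ L ^ 8 := pow_le_pow_right₀ hL (by norm_num)
  have hL48 : L ^ 4 ≤ L ^ 8 := pow_le_pow_right₀ hL (by norm_num)
  have hL8 : 1 ≤ L ^ 8 := one_le_pow₀ hL
  have b1 : |A1| ≤ C1 * w ^ 2 * (L ^ 8 * X) := by
    refine h1.trans ?_
    apply mul_le_mul_of_nonneg_left _ (by positivity)
    calc X1 ≤ X := hX1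
      _ = 1 * X := (one_mul X).symm
      _ ≤ L ^ 8 * X := mul_le_mul_of_nonneg_right hL8 hX
  have b2 : ∀ A : ℝ, |A| ≤ C1 * w * X2 → |μ| * |A| ≤ C1 * w ^ 2 * (L ^ 8 * X) := by
    intro A hA
    calc |μ| * |A| ≤ (w * L ^ 2) * (C1 * w * X2) := mul_le_mul hμ hA (abs_nonneg _) (by positivity)
      _ = C1 * w ^ 2 * (L ^ 2 * X2) := by ring
      _ ≤ C1 * w ^ 2 * (L ^ 8 * X) := by
          apply mul_le_mul_of_nonneg_left _ (by positivity)
          exact mul_le_mul hL28 hX2 hX20 (by positivity)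
  have b4 : |μ| ^ 2 * |A4| ≤ C1 * w ^ 2 * (L ^ 8 * X) := by
    calc |μ| ^ 2 * |A4| ≤ (w * L ^ 2) ^ 2 * (C1 * a) :=
          mul_le_mul (pow_le_pow_left₀ (abs_nonneg _) hμ 2) h4 (abs_nonneg _) (by positivity)
      _ = C1 * w ^ 2 * (L ^ 4 * a) := by ring
      _ ≤ C1 * w ^ 2 * (L ^ 8 * X) := by
          apply mul_le_mul_of_nonneg_left _ (by positivity)
          exact mul_le_mul hL48 haX ha (by positivity)
  have b5 : |Z| ≤ CZ * w ^ 2 * (L ^ 8 * X) := by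
    refine h5.trans ?_
    apply mul_le_mul_of_nonneg_left _ (by positivity)
    calc X5 ≤ X := hX5
      _ = 1 * X := (one_mul X).symm
      _ ≤ L ^ 8 * X := mul_le_mul_of_nonneg_right hL8 hX
  have b6 : dC + |μ| * dK + |μ| * dK' ≤ 3 * (CM * w ^ 2 * L ^ 5 * X6) := by
    have c1 : |μ| * dK ≤ CM * w ^ 2 * L ^ 5 * X6 := by
      calc |μ| * dK ≤ (w * L ^ 2) * (CM * w * L ^ 3 * X6) := mul_le_mul hμ hdK hdK0 (by positivity)
        _ = CM * w ^ 2 * L ^ 5 * X6 := by ring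
    have c2 : |μ| * dK' ≤ CM * w ^ 2 * L ^ 5 * X6 := by
      calc |μ| * dK' ≤ (w * L ^ 2) * (CM * w * L ^ 3 * X6) :=
            mul_le_mul hμ hdK' hdK0' (by positivity)
        _ = CM * w ^ 2 * L ^ 5 * X6 := by ring
    linarith
  have b7 : |G| * (dC + |μ| * dK + |μ| * dK') ≤ 9 * CG * CM * w ^ 2 * (L ^ 8 * X) := by
    have hG' : |G| ≤ 3 * a ^ 2 * (CG * L ^ 3) := by
      refine hG.trans ?_
      apply mul_le_mul_of_nonneg_left _ (by positivity)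
      exact mul_le_mul_of_nonneg_left (pow_le_pow_left₀ hl0 hlL 3) hCG
    calc |G| * (dC + |μ| * dK + |μ| * dK')
        ≤ (3 * a ^ 2 * (CG * L ^ 3)) * (3 * (CM * w ^ 2 * L ^ 5 * X6)) :=
          mul_le_mul hG' b6 (by positivity) (by positivity)
      _ = 9 * CG * CM * w ^ 2 * (L ^ 8 * (a ^ 2 * X6)) := by ring
      _ ≤ 9 * CG * CM * w ^ 2 * (L ^ 8 * X) := by
          apply mul_le_mul_of_nonneg_left _ (by positivity)
          exact mul_le_mul_of_nonneg_left hX6 (by positivity)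
  have b2' := b2 A2 h2
  have b3' := b2 A3 h3
  have e : (w ^ 2 * (4 * C1 + CZ + 9 * CG * CM)) * L ^ 8 * X =
      C1 * w ^ 2 * (L ^ 8 * X) + C1 * w ^ 2 * (L ^ 8 * X) + C1 * w ^ 2 * (L ^ 8 * X) +
      C1 * w ^ 2 * (L ^ 8 * X) + CZ * w ^ 2 * (L ^ 8 * X) +
      9 * CG * CM * w ^ 2 * (L ^ 8 * X) := by ring
  rw [e]
  linarith

theorem hOFF (hA : StOFA) (hR : StRST) (hP : StPTB) (hB : StBAD) (hM : StMUD) (hG : StGBD) :
    StOFF := by
  intro δ u hδ hδ1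
  obtain ⟨θ₁, hθ₁, hθ₁', hOFA⟩ := hA δ u hδ hδ1
  refine ⟨θ₁, hθ₁, hθ₁', fun θ hθ hθle => ?_⟩
  obtain ⟨C1, hC1, hOFA⟩ := hOFA θ hθ hθle
  have hθ10 : θ ≤ 1 / 10 := hθle.trans hθ₁'
  obtain ⟨CP, hCP, hPTB⟩ := hP (θ / 20) (by positivity)
  obtain ⟨CB, hCB, hBAD⟩ := hB θ (θ / 20) hθ hθ10 (by positivity)
  obtain ⟨CM, hCM, hMUD⟩ := hM
  obtain ⟨CG, hCG, hGBD⟩ := hG
  set κ₁ : ℝ := min (δ / 40) (3 * θ / 4) with hκ₁
  have hκ₁0 : 0 < κ₁ := lt_min (by positivity) (by positivity)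
  have hκ₁a : κ₁ ≤ δ / 40 := min_le_left _ _
  have hκ₁b : κ₁ ≤ 3 * θ / 4 := min_le_right _ _
  refine ⟨κ₁ / 2, by positivity, fun T B => ?_⟩
  obtain ⟨a₀, ha₀, hsmall⟩ := log_small
    ((((T : ℝ) * B ^ 2) ^ 2 * (4 * C1 + 2 * CB * CP ^ 4 + 9 * CG * CM))) (κ₁ / 32) (by positivity)
  refine ⟨a₀, by omega, ?_⟩
  intro i a k k' al be haa hk hk' hkk hka hka' hSup
  have ha3 : 3 ≤ a := ha₀.trans haa
  have ha1 : (1 : ℝ) ≤ a := by
    have : 1 ≤ a := by omega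
    exact_mod_cast this
  have ha0 : (0 : ℝ) < a := by linarith
  have hle : ∀ s t : ℝ, s ≤ t → (a : ℝ) ^ s ≤ (a : ℝ) ^ t := fun s t h =>
    Real.rpow_le_rpow_of_exponent_le ha1 h
  have hle1 : ∀ s : ℝ, s ≤ 1 → (a : ℝ) ^ s ≤ a := fun s h => by
    have := hle s 1 h
    rwa [Real.rpow_one] at this
  have hkle : k ≤ a := by
    have h : (k : ℝ) ≤ a := hka.trans (hle1 _ (by linarith))
    exact_mod_cast h
  have hkle' : k' ≤ a := by
    have h : (k' : ℝ) ≤ a := hka'.trans (hle1 _ (by linarith))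
    exact_mod_cast h
  have hk10 : (k : ℝ) ≤ (a : ℝ) ^ (1 / 10 : ℝ) := hka.trans (hle _ _ (by linarith))
  have hk10' : (k' : ℝ) ≤ (a : ℝ) ^ (1 / 10 : ℝ) := hka'.trans (hle _ _ (by linarith))
  have hz1 : 1 ≤ (a : ℝ) ^ θ := Real.one_le_rpow ha1 hθ.le
  set M : ℝ := (a : ℝ) ^ (1 - δ) with hMdef
  set N : ℝ := (a : ℝ) ^ (1 / 10 - δ) with hNdef
  have hMa : M ≤ a := hle1 _ (by linarith)
  have hNa : N ≤ a := hle1 _ (by linarith)
  obtain ⟨o1, o2, o3, o4⟩ := hOFA i a k k' T B al be (by omega) hk hk' hkk hka hka' hSup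
  rw [← hMdef, ← hNdef] at o1 o2 o3
  obtain ⟨m1, m2, m3⟩ := hMUD a k k' T ((a : ℝ) ^ θ) M N B al be (by omega) hz1 hk hkle hk' hkle'
    hMa hNa hSup
  obtain ⟨-, m2', -⟩ := hMUD a k' k T ((a : ℝ) ^ θ) M N B al be (by omega) hz1 hk' hkle' hk hkle
    hMa hNa hSup
  have hGB := hGBD i a u k k' θ ha3 hθ (by linarith)
  obtain ⟨-, hBD⟩ := hBAD a k k' (by omega) hk hk' hkk hk10 hk10'
  set μ : ℝ := MU T M N al be with hμ
  set w : ℝ := (T : ℝ) * B ^ 2 with hw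
  have hw0 : 0 ≤ w := by positivity
  have hwB : (T : ℝ) ^ 2 * B ^ 4 = w ^ 2 := by rw [hw]; ring
  -- the exceptional numbers
  set f : ℕ → ℝ := fun n => tk i a θ u n k * tk i a θ u n k' with hf
  set Z : ℝ := ∑ n ∈ NN a, f n * (PP T M N al be (vk n k) * PP T M N al be (vk n k') -
    PC T M N al be k k' n) with hZ
  have hap : 1 ≤ (a : ℝ) ^ (θ / 20) := Real.one_le_rpow ha1 (by positivity)
  have hZb : |Z| ≤ (2 * CB * CP ^ 4) * w ^ 2 * (a : ℝ) ^ (2 - 3 * θ / 4) := by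
    set E : ℝ := CP * (a : ℝ) ^ (θ / 20) with hE
    have hE1 : 1 ≤ E := by
      have := mul_le_mul hCP hap zero_le_one (by linarith : (0 : ℝ) ≤ CP)
      rwa [one_mul] at this
    have hE0 : 0 ≤ E := by linarith
    have hsub : BD a ((a : ℝ) ^ θ) k k' ⊆ NN a := by
      classical
      unfold BD
      exact filter_subset _ _
    have e1 : Z = ∑ n ∈ BD a ((a : ℝ) ^ θ) k k', f n *
        (PP T M N al be (vk n k) * PP T M N al be (vk n k') - PC T M N al be k k' n) := by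
      rw [hZ]
      symm
      apply sum_subset hsub
      intro n hn hn'
      rw [hR a k k' n T ((a : ℝ) ^ θ) M N B al be (by omega) hk hkle hk' hkle' hn hn' hSup,
        sub_self, mul_zero]
    rw [e1]
    have e2 : ∀ n ∈ BD a ((a : ℝ) ^ θ) k k', |f n *
        (PP T M N al be (vk n k) * PP T M N al be (vk n k') - PC T M N al be k k' n)| ≤
        2 * w ^ 2 * E ^ 4 := by
      intro n hn
      have hnN := hsub hn
      obtain ⟨-, -, -, t1, p1⟩ := hPTB a k n (by omega) hk hkle hnN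
      obtain ⟨-, -, -, t2, p2⟩ := hPTB a k' n (by omega) hk' hkle' hnN
      have q1 := (p1 T M N B al be hSup.1).1
      have q2 := (p2 T M N B al be hSup.1).1
      have q3 := (p1 T M N B al be hSup.1).2 k' hk' hkle'
      rw [← hw, ← hE] at q1 q2
      rw [hwB, ← hE] at q3
      have s1 : |f n| ≤ E ^ 2 := by
        rw [hf]
        change |tk i a θ u n k * tk i a θ u n k'| ≤ E ^ 2
        rw [abs_mul, sq]
        exact mul_le_mul (t1 i u θ) (t2 i u θ) (abs_nonneg _) hE0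
      have s2 : |PP T M N al be (vk n k) * PP T M N al be (vk n k')| ≤ w ^ 2 * E ^ 2 := by
        rw [abs_mul]
        calc |PP T M N al be (vk n k)| * |PP T M N al be (vk n k')| ≤ (w * E) * (w * E) :=
              mul_le_mul q1 q2 (abs_nonneg _) (by positivity)
          _ = w ^ 2 * E ^ 2 := by ring
      have s3 : |PC T M N al be k k' n| ≤ w ^ 2 * E ^ 2 := by
        refine q3.trans ?_
        apply mul_le_mul_of_nonneg_left _ (by positivity)
        nlinarith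
      rw [abs_mul]
      calc |f n| * |PP T M N al be (vk n k) * PP T M N al be (vk n k') - PC T M N al be k k' n|
          ≤ E ^ 2 * (w ^ 2 * E ^ 2 + w ^ 2 * E ^ 2) := by
            apply mul_le_mul s1 _ (abs_nonneg _) (by positivity)
            exact (abs_sub _ _).trans (add_le_add s2 s3)
        _ = 2 * w ^ 2 * E ^ 4 := by ring
    calc |∑ n ∈ BD a ((a : ℝ) ^ θ) k k', f n *
        (PP T M N al be (vk n k) * PP T M N al be (vk n k') - PC T M N al be k k' n)|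
        ≤ ∑ n ∈ BD a ((a : ℝ) ^ θ) k k', |f n *
        (PP T M N al be (vk n k) * PP T M N al be (vk n k') - PC T M N al be k k' n)| :=
          abs_sum_le_sum_abs _ _
      _ ≤ ∑ n ∈ BD a ((a : ℝ) ^ θ) k k', (2 * w ^ 2 * E ^ 4) := sum_le_sum e2
      _ = ((BD a ((a : ℝ) ^ θ) k k').card : ℝ) * (2 * w ^ 2 * E ^ 4) := by
          rw [sum_const, nsmul_eq_mul]
      _ ≤ (CB * (a : ℝ) ^ (2 - θ + θ / 20)) * (2 * w ^ 2 * E ^ 4) :=
          mul_le_mul_of_nonneg_right hBD (by positivity)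
      _ = (2 * CB * CP ^ 4) * w ^ 2 * ((a : ℝ) ^ (2 - θ + θ / 20) * ((a : ℝ) ^ (θ / 20)) ^ 4) := by
          rw [hE, mul_pow]
          ring
      _ = (2 * CB * CP ^ 4) * w ^ 2 * (a : ℝ) ^ (2 - 3 * θ / 4) := by
          congr 1
          rw [← Real.rpow_natCast ((a : ℝ) ^ (θ / 20)) 4, ← Real.rpow_mul ha0.le,
            ← Real.rpow_add ha0]
          congr 1
          push_cast
          ring
  -- the decomposition
  set G : ℝ := 3 * (a : ℝ) ^ 2 * GG i a θ u k k' with hGdef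
  have hdec : ∑ n ∈ NN a, tk i a θ u n k * tk i a θ u n k' *
      ((PP T M N al be (vk n k) - μ) * (PP T M N al be (vk n k') - μ)) =
      (∑ n ∈ NN a, f n * PC T M N al be k k' n - G * MC T M N al be k k') -
      μ * (∑ n ∈ NN a, f n * PP T M N al be (vk n k) - G * MK T M N al be k) -
      μ * (∑ n ∈ NN a, f n * PP T M N al be (vk n k') - G * MK T M N al be k') +
      μ ^ 2 * (∑ n ∈ NN a, f n - G) + Z +
      G * ((MC T M N al be k k' - μ ^ 2) - μ * (MK T M N al be k - μ) -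
        μ * (MK T M N al be k' - μ)) := by
    have e : ∑ n ∈ NN a, tk i a θ u n k * tk i a θ u n k' *
        ((PP T M N al be (vk n k) - μ) * (PP T M N al be (vk n k') - μ)) =
        ∑ n ∈ NN a, f n * PC T M N al be k k' n + Z -
        μ * ∑ n ∈ NN a, f n * PP T M N al be (vk n k) -
        μ * ∑ n ∈ NN a, f n * PP T M N al be (vk n k') + μ ^ 2 * ∑ n ∈ NN a, f n := by
      rw [hZ, mul_sum, mul_sum, mul_sum, ← sum_add_distrib, ← sum_sub_distrib, ← sum_sub_distrib,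
        ← sum_add_distrib]
      apply sum_congr rfl
      intro n _
      simp only [hf]
      ring
    rw [e]
    ring
  have htri := comb _ _ _ _ _ _ _ _ _ _ _ hdec
  have hlog0 : 0 ≤ Real.log (a : ℝ) := Real.log_nonneg ha1
  have hzinv : 1 / (a : ℝ) ^ θ = (a : ℝ) ^ (-θ) := by
    rw [Real.rpow_neg ha0.le, one_div]
  have hnum := numer
    (∑ n ∈ NN a, f n * PC T M N al be k k' n - G * MC T M N al be k k')
    (∑ n ∈ NN a, f n * PP T M N al be (vk n k) - G * MK T M N al be k)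
    (∑ n ∈ NN a, f n * PP T M N al be (vk n k') - G * MK T M N al be k')
    (∑ n ∈ NN a, f n - G) Z G μ
    |MC T M N al be k k' - μ ^ 2| |MK T M N al be k - μ| |MK T M N al be k' - μ|
    C1 CG CM (2 * CB * CP ^ 4) w (1 + Real.log a) (Real.log a) ((a : ℝ) ^ (2 - κ₁))
    ((a : ℝ) ^ (2 - δ / 40)) ((a : ℝ) ^ (12 / 10 : ℝ)) a ((a : ℝ) ^ (2 - 3 * θ / 4))
    ((a : ℝ) ^ (-θ)) hw0 (by linarith) hlog0 (by linarith) (by positivity) hC1.le hCG.le hCM.le
    (by positivity) ha0.le (hle _ _ (by linarith)) (hle _ _ (by linarith)) (by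
      have := hle 1 (2 - κ₁) (by linarith)
      rwa [Real.rpow_one] at this) (hle _ _ (by linarith)) (by
      rw [← Real.rpow_natCast (a : ℝ) 2, ← Real.rpow_add ha0]
      apply hle
      push_cast
      linarith) (by positivity) (by positivity)
    (by
      rw [← hwB]
      refine o1.trans (le_of_eq ?_)
      ring)
    (by
      refine o2.trans (le_of_eq ?_)
      rw [hw]
      ring)
    (by
      refine o3.trans (le_of_eq ?_)
      rw [hw]
      ring)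
    o4
    hZb
    (by
      rw [hGdef, abs_mul, abs_of_nonneg (by positivity : (0 : ℝ) ≤ 3 * (a : ℝ) ^ 2)]
      exact mul_le_mul_of_nonneg_left hGB (by positivity))
    m1
    (by
      refine m3.trans (le_of_eq ?_)
      rw [← hzinv, ← hwB]
      ring)
    (by
      refine m2.trans (le_of_eq ?_)
      rw [← hzinv, hw]
      ring)
    (by
      refine m2'.trans (le_of_eq ?_)
      rw [← hzinv, hw]
      ring)
    (abs_nonneg _) (abs_nonneg _) (abs_nonneg _)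
  refine (htri.trans hnum).trans ?_
  have hs := hsmall a haa
  calc w ^ 2 * (4 * C1 + 2 * CB * CP ^ 4 + 9 * CG * CM) * (1 + Real.log a) ^ 8 *
        (a : ℝ) ^ (2 - κ₁) ≤ (a : ℝ) ^ (16 * (κ₁ / 32)) * (a : ℝ) ^ (2 - κ₁) :=
        mul_le_mul_of_nonneg_right hs (by positivity)
    _ = (a : ℝ) ^ (2 - κ₁ / 2) := by
        rw [← Real.rpow_add ha0]
        congr 1
        ring

end Pool.Agent.Helper86.KP
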